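import Pool.Agent.Helper15.EP.St

set_option autoImplicit false

/-! # Module CN2 of project EP: tuples of sum n bounded below by c -/

namespace Pool.Agent.Helper24.EP

open Polynomial Pool.Agent.Helper15.FC Pool.Agent.Helper15.EP

theorem hCN2 (hCN1 : StCN1) : StCN2 := by
  intro k n c hc
  rw [← hCN1 k (n - ∑ i, c i)]
  refine Finset.card_bij' (fun x _ => fun i => x i - c i) (fun y _ => fun i => y i + c i)
    ?_ ?_ ?_ ?_
  · intro x hx
    simp only [Finset.mem_filter, Finset.Nat.mem_antidiagonalTuple] at hx
    obtain ⟨h1, h2⟩ := hx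
    rw [Finset.Nat.mem_antidiagonalTuple]
    have h3 : ∑ i, (x i - c i) + ∑ i, c i = ∑ i, x i := by
      rw [← Finset.sum_add_distrib]
      exact Finset.sum_congr rfl (fun i _ => Nat.sub_add_cancel (h2 i))
    omega
  · intro y hy
    simp only [Finset.Nat.mem_antidiagonalTuple] at hy
    simp only [Finset.mem_filter, Finset.Nat.mem_antidiagonalTuple]
    refine ⟨?_, fun i => Nat.le_add_left _ _⟩
    rw [Finset.sum_add_distrib, hy]
    omega
  · intro x hx
    simp only [Finset.mem_filter, Finset.Nat.mem_antidiagonalTuple] at hx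
    funext i
    exact Nat.sub_add_cancel (hx.2 i)
  · intro y hy
    funext i
    exact Nat.add_sub_cancel _ _

end Pool.Agent.Helper24.EP
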