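import Pool.Agent.Helper15.EP.St

set_option autoImplicit false

/-! # Module TE2 of project EP -/

namespace Pool.Agent.Helper24.EP

open Polynomial Pool.Agent.Helper15.FC Pool.Agent.Helper15.EP

private theorem qr_one_le (F : Type) [Field F] [Fintype F] : (1 : ℝ) ≤ qr F := by
  have h : 1 ≤ Fintype.card F := Fintype.card_pos
  exact_mod_cast h

private theorem tau_one_le {F : Type} [Field F] [Fintype F] {m : F[X]} (hm : m.Monic) :
    1 ≤ tau m := by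
  have h1 : (1 : F[X]) ∈ Dv m := (mem_Dv hm.ne_zero).2 ⟨monic_one, one_dvd m⟩
  have h2 : 1 ≤ (Dv m).card := Finset.card_pos.2 ⟨1, h1⟩
  unfold tau
  exact_mod_cast h2

private theorem tau_mono {F : Type} [Field F] [Fintype F] {m1 m : F[X]} (h1 : m1.Monic)
    (hm : m.Monic) (h : m1 ∣ m) : tau m1 ≤ tau m := by
  unfold tau
  have h2 : (Dv m1).card ≤ (Dv m).card := by
    refine Finset.card_le_card (fun d hd => ?_)
    rw [mem_Dv h1.ne_zero] at hd
    rw [mem_Dv hm.ne_zero]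
    exact ⟨hd.1, hd.2.trans h⟩
  exact_mod_cast h2

private theorem prod_mem {F : Type} [Field F] [Fintype F] {k : ℕ} {x : Fin k → ℕ}
    {a : Fin k → F[X]} (ha : a ∈ Tup F x) : ∏ i, a i ∈ Mn F (∑ i, x i) := by
  have h : ∀ i, (a i).Monic ∧ (a i).natDegree = x i := fun i =>
    mem_Mn.1 (Fintype.mem_piFinset.1 ha i)
  rw [mem_Mn]
  refine ⟨monic_prod_of_monic _ _ (fun i _ => (h i).1), ?_⟩
  rw [natDegree_prod_of_monic _ _ (fun i _ => (h i).1)]
  exact Finset.sum_congr rfl (fun i _ => (h i).2)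

private theorem fib {F : Type} [Field F] [Fintype F] {k : ℕ} (x : Fin k → ℕ) (E : F[X] → ℝ)
    (hE : ∀ m, 0 ≤ E m) :
    ∑ a ∈ Tup F x, E (∏ i, a i) ≤ ∑ m ∈ Mn F (∑ i, x i), tau m ^ k * E m := by
  classical
  rw [← Finset.sum_fiberwise_of_maps_to (g := fun a : Fin k → F[X] => ∏ i, a i)
    (t := Mn F (∑ i, x i)) (fun a ha => prod_mem ha)]
  refine Finset.sum_le_sum (fun m hm => ?_)
  have hm0 := (mem_Mn.1 hm).1.ne_zero
  have h1 : ∑ a ∈ (Tup F x).filter (fun a => ∏ i, a i = m), E (∏ i, a i) =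
      ∑ _a ∈ (Tup F x).filter (fun a => ∏ i, a i = m), E m :=
    Finset.sum_congr rfl (fun a ha => by
      simp only [Finset.mem_filter] at ha
      rw [ha.2])
  rw [h1, Finset.sum_const, nsmul_eq_mul]
  refine mul_le_mul_of_nonneg_right ?_ (hE m)
  have h2 : ((Tup F x).filter (fun a => ∏ i, a i = m)).card ≤ (Dv m).card ^ k := by
    have h3 : (Tup F x).filter (fun a => ∏ i, a i = m) ⊆ Fintype.piFinset (fun _ : Fin k => Dv m) := by
      intro a ha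
      simp only [Finset.mem_filter] at ha
      rw [Fintype.mem_piFinset]
      intro i
      rw [mem_Dv hm0]
      refine ⟨(mem_Mn.1 (Fintype.mem_piFinset.1 ha.1 i)).1, ?_⟩
      rw [← ha.2]
      exact Finset.dvd_prod_of_mem _ (Finset.mem_univ i)
    calc _ ≤ (Fintype.piFinset (fun _ : Fin k => Dv m)).card := Finset.card_le_card h3
      _ = (Dv m).card ^ k := by
        rw [Fintype.card_piFinset]
        simp
  unfold tau
  exact_mod_cast h2

theorem hTE2 (hKPT : StKPT) (hKDC : StKDC) (hKSM : StKSM) (hTAU : StTAU) : StTE2 := by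
  intro F _ _ k l h δ hh hδ
  obtain ⟨C0, hC0, hT⟩ := hTAU F (δ / (2 * (k + 2))) (by positivity)
  obtain ⟨C2, hC2, hK⟩ := hKSM F h (δ / 2) hh (by positivity)
  have hq1 := qr_one_le F
  have hq0 : (0 : ℝ) < qr F := lt_of_lt_of_le one_pos hq1
  have hqh : (1 : ℝ) ≤ qr F ^ h.natDegree := one_le_pow₀ hq1
  have hC0k : (1 : ℝ) ≤ C0 ^ (k + 2) := one_le_pow₀ hC0
  refine ⟨2 * qr F ^ h.natDegree * C0 ^ (k + 2) * C2, ?_, ?_⟩
  · have h1 : (1 : ℝ) ≤ 2 * qr F ^ h.natDegree := by linarith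
    exact one_le_mul_of_one_le_of_one_le (one_le_mul_of_one_le_of_one_le h1 hC0k) hC2
  intro x y j j' hjj
  obtain ⟨μ, hμ⟩ : ∃ μ, μ = ∑ i, x i := ⟨_, rfl⟩
  obtain ⟨E, hE⟩ : ∃ E : F[X] → ℝ, E = fun m => |(AP y m h : ℝ) - AV y m h| := ⟨_, rfl⟩
  obtain ⟨Q, hQ⟩ : ∃ Q : ℝ, Q = qr F ^ (y j + y j') := ⟨_, rfl⟩
  obtain ⟨B, hB⟩ : ∃ B : ℝ, B = qr F ^ (∑ i, y i) := ⟨_, rfl⟩
  have hE0 : ∀ m, 0 ≤ E m := fun m => by rw [hE]; exact abs_nonneg _
  have hQ0 : 0 < Q := by rw [hQ]; positivity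
  have hB0 : 0 < B := by rw [hB]; positivity
  have hfib := fib x E hE0
  rw [← hμ] at hfib ⊢
  have hgoal : (∑ a ∈ Tup F x, |(AP y (∏ i, a i) h : ℝ) - AV y (∏ i, a i) h|) =
      ∑ a ∈ Tup F x, E (∏ i, a i) := by rw [hE]
  rw [hgoal, ← hQ, ← hB]
  have hc0 : 0 < 2 * B * qr F ^ h.natDegree := by positivity
  obtain ⟨κ, hκd⟩ : ∃ κ : F[X] → ℝ, κ = fun m =>
    E m * Q / (2 * B * qr F ^ h.natDegree * tau m ^ 2) := ⟨_, rfl⟩
  have hκ0 : ∀ m, 0 ≤ κ m := fun m => by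
    rw [hκd]
    exact div_nonneg (mul_nonneg (hE0 m) hQ0.le) (mul_nonneg hc0.le (sq_nonneg _))
  have hκ : ∑ m ∈ Mn F μ, κ m ≤ C2 * qr F ^ ((3 / 2 + δ / 2) * μ) := by
    refine hK μ κ (fun m hm => ?_)
    have hmm := (mem_Mn.1 hm).1
    obtain ⟨m1, a, s, h1, ha, hs, hdec, hsq, hcop, hcopt, hsd⟩ := hKDC F m h hmm hh
    refine ⟨m1, a, s, h1, ha, hs, hdec, hsd, ?_⟩
    have h2 := hKPT F l y j j' m1 (a ^ 2 * s) h hjj h1 ((ha.pow 2).mul hs) hsq hcop hcopt hh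
    rw [← hdec, ← hQ, ← hB] at h2
    have h3 : |(AP y m h : ℝ) - AV y m h| = E m := by rw [hE]
    rw [h3] at h2
    have ht1 : 1 ≤ tau m := tau_one_le hmm
    have ht2 : tau m1 ≤ tau m := tau_mono h1 hmm (by rw [hdec]; exact Dvd.intro _ rfl)
    have ht3 : 1 ≤ tau m1 := tau_one_le h1
    have ht4 : tau m1 ^ 2 ≤ tau m ^ 2 := pow_le_pow_left₀ (by linarith) ht2 2
    have hc1 : 0 < 2 * B * qr F ^ h.natDegree * tau m ^ 2 := by
      have : 0 < tau m := by linarith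
      positivity
    rw [hκd]
    simp only
    rw [div_le_iff₀ hc1]
    refine h2.trans ?_
    have hS : 0 ≤ Real.sqrt (qr F) ^ m1.natDegree * qr F ^ (a ^ 2 * s).natDegree := by positivity
    have h5 : 0 ≤ 2 * B * qr F ^ h.natDegree *
        (Real.sqrt (qr F) ^ m1.natDegree * qr F ^ (a ^ 2 * s).natDegree) := by positivity
    have h6 := mul_le_mul_of_nonneg_left ht4 h5
    calc B * (2 * tau m1 ^ 2 * qr F ^ h.natDegree * Real.sqrt (qr F) ^ m1.natDegree *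
          qr F ^ (a ^ 2 * s).natDegree)
        = 2 * B * qr F ^ h.natDegree *
        (Real.sqrt (qr F) ^ m1.natDegree * qr F ^ (a ^ 2 * s).natDegree) * tau m1 ^ 2 := by ring
      _ ≤ 2 * B * qr F ^ h.natDegree *
        (Real.sqrt (qr F) ^ m1.natDegree * qr F ^ (a ^ 2 * s).natDegree) * tau m ^ 2 := h6
      _ = Real.sqrt (qr F) ^ m1.natDegree * qr F ^ (a ^ 2 * s).natDegree *
          (2 * B * qr F ^ h.natDegree * tau m ^ 2) := by ring
  -- bound for the powers of tau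
  have htau : ∀ m ∈ Mn F μ, tau m ^ (k + 2) ≤ C0 ^ (k + 2) * qr F ^ (δ / 2 * μ) := by
    intro m hm
    have hmm := (mem_Mn.1 hm).1
    have hmd := (mem_Mn.1 hm).2
    have h1 : tau m ≤ C0 * qr F ^ (δ / (2 * (k + 2)) * μ) := by
      have := hT m hmm
      rw [hmd] at this
      exact this
    have h2 : 0 ≤ tau m := by linarith [tau_one_le hmm]
    calc tau m ^ (k + 2) ≤ (C0 * qr F ^ (δ / (2 * (k + 2)) * μ)) ^ (k + 2) :=
          pow_le_pow_left₀ h2 h1 _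
      _ = C0 ^ (k + 2) * qr F ^ (δ / 2 * μ) := by
          rw [mul_pow, ← Real.rpow_mul_natCast hq0.le]
          congr 2
          push_cast
          field_simp
  have hterm : ∀ m ∈ Mn F μ, tau m ^ k * E m * Q ≤
      2 * B * qr F ^ h.natDegree * (C0 ^ (k + 2) * qr F ^ (δ / 2 * μ)) * κ m := by
    intro m hm
    have hmm := (mem_Mn.1 hm).1
    have ht1 : 1 ≤ tau m := tau_one_le hmm
    have ht0 : tau m ≠ 0 := by linarith
    have h1 : E m * Q = 2 * B * qr F ^ h.natDegree * tau m ^ 2 * κ m := by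
      rw [hκd]
      simp only
      rw [mul_div_cancel₀]
      have : 0 < tau m := by linarith
      positivity
    have h2 : tau m ^ k * E m * Q = 2 * B * qr F ^ h.natDegree * κ m * tau m ^ (k + 2) := by
      rw [mul_assoc, h1]
      ring
    rw [h2]
    have h3 := mul_le_mul_of_nonneg_left (htau m hm) (mul_nonneg hc0.le (hκ0 m))
    calc _ ≤ _ := h3
      _ = _ := by ring
  have hpow : qr F ^ (δ / 2 * μ) * qr F ^ ((3 / 2 + δ / 2) * μ) = qr F ^ ((3 / 2 + δ) * (μ : ℝ)) := by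
    rw [← Real.rpow_add hq0]
    congr 1
    ring
  calc (∑ a ∈ Tup F x, E (∏ i, a i)) * Q ≤ (∑ m ∈ Mn F μ, tau m ^ k * E m) * Q :=
        mul_le_mul_of_nonneg_right hfib hQ0.le
    _ = ∑ m ∈ Mn F μ, tau m ^ k * E m * Q := Finset.sum_mul _ _ _
    _ ≤ ∑ m ∈ Mn F μ, 2 * B * qr F ^ h.natDegree * (C0 ^ (k + 2) * qr F ^ (δ / 2 * μ)) * κ m :=
        Finset.sum_le_sum hterm
    _ = 2 * B * qr F ^ h.natDegree * (C0 ^ (k + 2) * qr F ^ (δ / 2 * μ)) * ∑ m ∈ Mn F μ, κ m := by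
        rw [Finset.mul_sum]
    _ ≤ 2 * B * qr F ^ h.natDegree * (C0 ^ (k + 2) * qr F ^ (δ / 2 * μ)) *
        (C2 * qr F ^ ((3 / 2 + δ / 2) * μ)) := by
        refine mul_le_mul_of_nonneg_left hκ ?_
        have : 0 ≤ qr F ^ (δ / 2 * μ) := Real.rpow_nonneg hq0.le _
        positivity
    _ = 2 * B * qr F ^ h.natDegree * C0 ^ (k + 2) * C2 *
        (qr F ^ (δ / 2 * μ) * qr F ^ ((3 / 2 + δ / 2) * μ)) := by ring
    _ = 2 * qr F ^ h.natDegree * C0 ^ (k + 2) * C2 * B * qr F ^ ((3 / 2 + δ) * (μ : ℝ)) := by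
        rw [hpow]
        ring

end Pool.Agent.Helper24.EP
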