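import Pool.Agent.Helper68.EP.St4

/-! Module EZ3 of project EP: the theorem of part Z. -/

set_option autoImplicit false

open MeasureTheory Set Filter Topology
open scoped ENNReal RealInnerProductSpace

namespace Pool.Agent.Helper24.EP

open Pool.Agent.Helper68.EP Pool.Agent.Helper20.RG
open Pool.Agent.Helper68.LM (Pl BB Bd Av HL ft fm DQ)
open Pool.Agent.Helper20.RL (RQ Rich BM Fml)

theorem g_pos (P : Par) : 0 < P.g := by
  have := P.hs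
  unfold Par.g
  linarith

theorem g_lt (P : Par) : P.g < 1 / 64 := by
  have := P.hsp
  have := P.hp
  unfold Par.g
  linarith

theorem two_rpow (x : ℝ) (u : ℕ) : (2 : ℝ) ^ (-(x * u)) = ((2 : ℝ) ^ (-x)) ^ u := by
  rw [← Real.rpow_natCast, ← Real.rpow_mul (by norm_num)]
  congr 1
  ring

theorem summ (k : ℕ) {x : ℝ} (hx : 0 < x) :
    Summable (fun u : ℕ => (u : ℝ) ^ k * (2 : ℝ) ^ (-(x * u))) := by
  have h : (fun u : ℕ => (u : ℝ) ^ k * (2 : ℝ) ^ (-(x * u))) =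
      fun u : ℕ => (u : ℝ) ^ k * ((2 : ℝ) ^ (-x)) ^ u := by
    funext u
    rw [two_rpow]
  rw [h]
  apply summable_pow_mul_geometric_of_norm_lt_one
  rw [Real.norm_of_nonneg (by positivity)]
  exact Real.rpow_lt_one_of_one_lt_of_neg (by norm_num) (by linarith)

theorem tail {f : ℕ → ℝ} (hf : Summable f) {e : ℝ} (he : 0 < e) :
    ∃ N : ℕ, ∀ U₀ U₁ : ℕ, N ≤ U₀ → ∑ u ∈ Finset.Icc U₀ U₁, f u ≤ e := by
  obtain ⟨s, hs⟩ := summable_iff_vanishing_norm.mp hf e he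
  refine ⟨s.sup id + 1, fun U₀ U₁ hU => ?_⟩
  have hd : Disjoint (Finset.Icc U₀ U₁) s := by
    rw [Finset.disjoint_left]
    intro u hu hus
    have h1 : u ≤ s.sup id := Finset.le_sup (f := id) hus
    have h2 := (Finset.mem_Icc.mp hu).1
    omega
  exact (le_abs_self _).trans (hs _ hd).le

theorem SMu_le (P : Par) (Δ : Dat) (u : ℕ) (θ M : ℝ) (E : Set Pl) :
    SMu P Δ u θ M E ≤ SVu P Δ u θ E := by
  unfold SMu SVu
  apply mul_le_mul_right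
  refine Finset.sum_le_sum fun j _ => ENNReal.tsum_le_tsum fun k => ?_
  exact measure_mono fun y hy => hy.1

theorem hypK (P : Par) (Δ : Dat) (hS : Sy P Δ) {C1 C2 : ℝ} {v1 v2 : ℕ} (hC1 : 1 ≤ C1) (hC2 : 1 ≤ C2)
    (h1 : ∀ (Δ : Dat) (u : ℕ) (θ : ℝ) (E : Set Pl), Sy P Δ → v1 ≤ u →
      (2 : ℝ) ^ (-(8 * P.g * u)) ≤ θ → θ ≤ 1 → BM E →
      SVu P Δ u θ E ≤ ENNReal.ofReal (C1 / θ) * volume E)
    (h2 : ∀ (Δ : Dat) (U₀ U₁ : ℕ) (θ : ℝ) (E : Set Pl), Sy P Δ →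
      v2 ≤ U₀ → (2 : ℝ) ^ (-(P.g * U₀)) ≤ θ → θ ≤ 1 → BM E →
      ∑ u ∈ Finset.Icc U₀ U₁, SVu P Δ u θ E ≤ ENNReal.ofReal (C2 / θ) * volume E)
    (w U₁ : ℕ) (hw1 : v1 ≤ w) (hw2 : v2 ≤ w) (θ : ℝ) (E : Set Pl)
    (hθ : (2 : ℝ) ^ (-(7 * P.g * w)) ≤ θ) (hθ1 : θ ≤ 1) (hE : BM E) :
    ∑ u ∈ Finset.Ioc w U₁, SVu P Δ u θ E ≤ ENNReal.ofReal ((8 * C1 * w + C2) / θ) * volume E := by
  have hg := g_pos P
  have hθ0 : 0 < θ := lt_of_lt_of_le (by positivity) hθ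
  have hsub : Finset.Ioc w U₁ ⊆ Finset.Ioo w (8 * w) ∪ Finset.Icc (8 * w) U₁ := by
    intro u hu
    rw [Finset.mem_Ioc] at hu
    rw [Finset.mem_union, Finset.mem_Ioo, Finset.mem_Icc]
    by_cases h : u < 8 * w
    · exact Or.inl ⟨hu.1, h⟩
    · exact Or.inr ⟨by omega, hu.2⟩
  have hA : ∑ u ∈ Finset.Ioo w (8 * w), SVu P Δ u θ E ≤
      ENNReal.ofReal (8 * C1 * w / θ) * volume E := by
    have e1 : ∀ u ∈ Finset.Ioo w (8 * w), SVu P Δ u θ E ≤ ENNReal.ofReal (C1 / θ) * volume E := by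
      intro u hu
      rw [Finset.mem_Ioo] at hu
      refine h1 Δ u θ E hS (by omega) (le_trans ?_ hθ) hθ1 hE
      apply Real.rpow_le_rpow_of_exponent_le (by norm_num)
      have : (w : ℝ) ≤ u := by exact_mod_cast hu.1.le
      have hw : (0 : ℝ) ≤ w := Nat.cast_nonneg w
      nlinarith [mul_le_mul_of_nonneg_left this hg.le, mul_nonneg hg.le hw]
    refine (Finset.sum_le_card_nsmul _ _ _ e1).trans ?_
    rw [Nat.card_Ioo, nsmul_eq_mul, ← mul_assoc]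
    gcongr
    rw [← ENNReal.ofReal_natCast, ← ENNReal.ofReal_mul (by positivity)]
    apply ENNReal.ofReal_le_ofReal
    have h3 : ((8 * w - w - 1 : ℕ) : ℝ) ≤ 8 * (w : ℝ) := by
      have : 8 * w - w - 1 ≤ 8 * w := by omega
      exact_mod_cast this
    calc ((8 * w - w - 1 : ℕ) : ℝ) * (C1 / θ) ≤ 8 * (w : ℝ) * (C1 / θ) := by gcongr
      _ = 8 * C1 * w / θ := by ring
  have hB : ∑ u ∈ Finset.Icc (8 * w) U₁, SVu P Δ u θ E ≤ ENNReal.ofReal (C2 / θ) * volume E := by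
    refine h2 Δ (8 * w) U₁ θ E hS (by omega) (le_trans ?_ hθ) hθ1 hE
    apply Real.rpow_le_rpow_of_exponent_le (by norm_num)
    push_cast
    have hw : (0 : ℝ) ≤ w := Nat.cast_nonneg w
    nlinarith [mul_nonneg hg.le hw]
  calc ∑ u ∈ Finset.Ioc w U₁, SVu P Δ u θ E
      ≤ ∑ u ∈ Finset.Ioo w (8 * w) ∪ Finset.Icc (8 * w) U₁, SVu P Δ u θ E :=
        Finset.sum_le_sum_of_subset hsub
    _ ≤ ∑ u ∈ Finset.Ioo w (8 * w), SVu P Δ u θ E + ∑ u ∈ Finset.Icc (8 * w) U₁, SVu P Δ u θ E :=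
        le_self_add.trans_eq (Finset.sum_union_inter)
    _ ≤ ENNReal.ofReal (8 * C1 * w / θ) * volume E + ENNReal.ofReal (C2 / θ) * volume E :=
        add_le_add hA hB
    _ = _ := by
        rw [← add_mul, ← ENNReal.ofReal_add (by positivity) (by positivity)]
        congr 2
        ring

theorem absorb {S A : ℝ≥0∞} (hS : S ≠ ⊤) (h : S ≤ A + ENNReal.ofReal (1 / 2) * S) : S ≤ 2 * A := by
  have e : ENNReal.ofReal (1 / 2) * S + ENNReal.ofReal (1 / 2) * S = S := by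
    rw [← add_mul, ← ENNReal.ofReal_add (by norm_num) (by norm_num)]
    norm_num
  have hfin : ENNReal.ofReal (1 / 2) * S ≠ ⊤ := ENNReal.mul_ne_top ENNReal.ofReal_ne_top hS
  have h2 : ENNReal.ofReal (1 / 2) * S ≤ A := by
    rw [← ENNReal.add_le_add_iff_right hfin]
    calc ENNReal.ofReal (1 / 2) * S + ENNReal.ofReal (1 / 2) * S = S := e
      _ ≤ _ := h
  calc S = ENNReal.ofReal (1 / 2) * S + ENNReal.ofReal (1 / 2) * S := e.symm
    _ ≤ A + A := add_le_add h2 h2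
    _ = 2 * A := (two_mul A).symm

theorem th_le (P : Par) {θ M : ℝ} (h0 : 0 < θ) (h1 : θ ≤ 1) (hM : M ≤ 1 / θ) :
    θ ≤ (max 1 M) ^ (1 - P.p) := by
  have hp1 : 1 < P.p := P.hs.trans P.hsp
  have hp2 := P.hp
  have e1 : (1 / θ) ^ (1 - P.p) ≤ (max 1 M) ^ (1 - P.p) := by
    exact Real.rpow_le_rpow_of_nonpos (lt_of_lt_of_le one_pos (le_max_left _ _))
      (max_le (by rw [le_div_iff₀ h0]; linarith) hM) (by linarith)
  have e2 : (1 / θ) ^ (1 - P.p) = θ ^ (P.p - 1) := by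
    rw [one_div, Real.inv_rpow h0.le, ← Real.rpow_neg h0.le]
    congr 1
    ring
  have e3 : θ ^ (1 : ℝ) ≤ θ ^ (P.p - 1) :=
    Real.rpow_le_rpow_of_exponent_ge h0 h1 (by linarith)
  rw [Real.rpow_one] at e3
  calc θ ≤ θ ^ (P.p - 1) := e3
    _ = (1 / θ) ^ (1 - P.p) := e2.symm
    _ ≤ _ := e1

theorem hEZ3 (_hEVF : StEVF) (_hEAP : StEAP) (hEZM : StEZM) (hEN1 : StEN1) (hEZ1 : StEZ1)
    (hEBS : StEBS) (hEZ2 : StEZ2) : StEZ3 := by
  intro P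
  obtain ⟨CM, hCM, hM⟩ := hEZM P
  obtain ⟨vN, hvN, hN⟩ := hEN1 P
  obtain ⟨C1, v1, hC1, h1⟩ := hEZ1 P
  obtain ⟨CB, vB, hCB, hB⟩ := hEBS P
  obtain ⟨C2, v2, hC2, h2⟩ := hEZ2 P
  have hg := g_pos P
  have hg2 := g_lt P
  have hsb : Summable (fun u : ℕ => 5 * (u : ℝ) * (2 : ℝ) ^ (-(P.g * u))) := by
    refine ((summ 1 hg).mul_left 5).congr fun u => ?_
    ring
  have hst : Summable (fun u : ℕ => CB * (u : ℝ) * (8 * C1 * u + C2) * 2 * (2 : ℝ) ^ (-(P.g * u))) := by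
    refine (((summ 2 hg).mul_left (CB * (8 * C1) * 2)).add
      ((summ 1 hg).mul_left (CB * C2 * 2))).congr fun u => ?_
    ring
  obtain ⟨N1, hN1⟩ := tail hsb (e := 1 / 2) (by norm_num)
  obtain ⟨N2, hN2⟩ := tail hst (e := 1) (by norm_num)
  refine ⟨8 * CM + 2, vN + v1 + vB + v2 + N1 + N2, by linarith, ?_⟩
  intro Δ U₀ U₁ θ M E hS hU hθ hθ1 hMθ hE
  have hθ0 : 0 < θ := lt_of_lt_of_le (by positivity) hθ
  have hU0 : (0 : ℝ) ≤ U₀ := Nat.cast_nonneg _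
  have hgU : 0 ≤ P.g * U₀ := mul_nonneg hg.le hU0
  set V := volume E with hV
  have hVfin : V ≠ ⊤ := hE.2.measure_lt_top.ne
  set Mp : ℝ := (max 1 M) ^ (1 - P.p) with hMp
  have hθM : θ ≤ Mp := th_le P hθ0 hθ1 hMθ
  have hMp0 : 0 < Mp := lt_of_lt_of_le hθ0 hθM
  set S := ∑ u ∈ Finset.Icc U₀ U₁, SMu P Δ u θ M E with hSdef
  have hpow : ∀ u : ℕ, U₀ ≤ u → ∀ x : ℝ, P.g / 2 ≤ x → (2 : ℝ) ^ (-(x * u)) ≤ θ := by
    intro u hu x hx
    refine le_trans ?_ hθ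
    apply Real.rpow_le_rpow_of_exponent_le (by norm_num)
    have h3 : (U₀ : ℝ) ≤ u := by exact_mod_cast hu
    have h4 : P.g / 2 * U₀ ≤ x * u := mul_le_mul hx h3 hU0 (by linarith)
    linarith
  have hSfin : S ≠ ⊤ := by
    rw [hSdef]
    refine (ENNReal.sum_lt_top.mpr fun u hu => ?_).ne
    have hu' := (Finset.mem_Icc.mp hu).1
    refine lt_of_le_of_lt ((SMu_le P Δ u θ M E).trans
      (h1 Δ u θ E hS (by omega) (hpow u hu' _ (by linarith)) hθ1 hE)) ?_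
    exact ENNReal.mul_lt_top ENNReal.ofReal_lt_top (lt_top_iff_ne_top.mpr hVfin)
  -- the bad sums
  have hbad : ∀ w ∈ Finset.Icc U₀ U₁,
      ENNReal.ofReal (4 / θ) * ∑ u ∈ Finset.Icc U₀ U₁, SBu P Δ w u θ M E ≤
        ENNReal.ofReal (5 * w * (2 : ℝ) ^ (-(P.g * w))) * S +
        ENNReal.ofReal (CB * w * (8 * C1 * w + C2) * 2 * (2 : ℝ) ^ (-(P.g * w)) * (Mp / θ)) * V := by
    intro w hw
    rw [Finset.mem_Icc] at hw
    have hb := hB Δ U₀ U₁ w θ M (8 * C1 * w + C2) E hS (by omega) hw.1 hw.2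
      (hpow U₀ le_rfl _ (by linarith)) hθ1 (by positivity) hE
      (fun θ₁ E₁ ha hb hc => hypK P Δ hS hC1 hC2 h1 h2 w U₁ (by omega) (by omega) θ₁ E₁ ha hb hc)
    refine hb.trans (add_le_add le_rfl ?_)
    gcongr
    have hw0 : (0 : ℝ) ≤ w := Nat.cast_nonneg _
    have hUw : (U₀ : ℝ) ≤ w := by exact_mod_cast hw.1
    have e1 : (2 : ℝ) ^ (-(2 * P.g * w)) / θ ≤ (2 : ℝ) ^ (-(P.g * w)) * (2 : ℝ) ^ (-(P.g / 2 * U₀)) := by
      rw [div_le_iff₀ hθ0]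
      calc (2 : ℝ) ^ (-(2 * P.g * w)) ≤
            (2 : ℝ) ^ (-(P.g * w)) * (2 : ℝ) ^ (-(P.g / 2 * U₀)) * (2 : ℝ) ^ (-(P.g / 2 * U₀)) := by
              rw [← Real.rpow_add (by norm_num), ← Real.rpow_add (by norm_num)]
              apply Real.rpow_le_rpow_of_exponent_le (by norm_num)
              nlinarith [mul_le_mul_of_nonneg_left hUw hg.le]
        _ ≤ _ := mul_le_mul_of_nonneg_left hθ (by positivity)
    have e2 : (2 : ℝ) ^ (-((w : ℝ) / 2)) ≤ (2 : ℝ) ^ (-(P.g * w)) * (2 : ℝ) ^ (-(P.g / 2 * U₀)) := by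
      rw [← Real.rpow_add (by norm_num)]
      apply Real.rpow_le_rpow_of_exponent_le (by norm_num)
      have h5 : P.g * w ≤ 1 / 64 * w := mul_le_mul_of_nonneg_right hg2.le hw0
      have h6 : P.g * U₀ ≤ P.g * w := mul_le_mul_of_nonneg_left hUw hg.le
      linarith
    have e3 : (2 : ℝ) ^ (-(P.g / 2 * U₀)) ≤ Mp := hθ.trans hθM
    have e4 : (2 : ℝ) ^ (-(2 * P.g * w)) / θ + (2 : ℝ) ^ (-((w : ℝ) / 2)) ≤
        2 * (2 : ℝ) ^ (-(P.g * w)) * Mp := by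
      calc (2 : ℝ) ^ (-(2 * P.g * w)) / θ + (2 : ℝ) ^ (-((w : ℝ) / 2))
          ≤ 2 * (2 : ℝ) ^ (-(P.g * w)) * (2 : ℝ) ^ (-(P.g / 2 * U₀)) := by linarith
        _ ≤ _ := mul_le_mul_of_nonneg_left e3 (by positivity)
    calc CB * w * (8 * C1 * w + C2) *
          ((2 : ℝ) ^ (-(2 * P.g * w)) / θ + (2 : ℝ) ^ (-((w : ℝ) / 2))) / θ
        ≤ CB * w * (8 * C1 * w + C2) * (2 * (2 : ℝ) ^ (-(P.g * w)) * Mp) / θ := by gcongr
      _ = _ := by ring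
  have hmain := hM Δ U₀ U₁ θ M E hS
    (fun u hu _ => (hN u θ (by omega) (hpow u hu _ (by linarith)) hθ1).1) hE hθ0
  have hfin : S ≤ ENNReal.ofReal ((4 * CM + 1) / θ * Mp) * V + ENNReal.ofReal (1 / 2) * S := by
    calc S ≤ ENNReal.ofReal (4 / θ) * (ENNReal.ofReal (CM * Mp) * V +
          ∑ w ∈ Finset.Icc U₀ U₁, ∑ u ∈ Finset.Icc U₀ U₁, SBu P Δ w u θ M E) := hmain
      _ = ENNReal.ofReal (4 / θ) * (ENNReal.ofReal (CM * Mp) * V) +
          ∑ w ∈ Finset.Icc U₀ U₁, ENNReal.ofReal (4 / θ) *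
            ∑ u ∈ Finset.Icc U₀ U₁, SBu P Δ w u θ M E := by
          rw [mul_add, Finset.mul_sum]
      _ ≤ ENNReal.ofReal (4 / θ) * (ENNReal.ofReal (CM * Mp) * V) +
          ∑ w ∈ Finset.Icc U₀ U₁, (ENNReal.ofReal (5 * w * (2 : ℝ) ^ (-(P.g * w))) * S +
        ENNReal.ofReal (CB * w * (8 * C1 * w + C2) * 2 * (2 : ℝ) ^ (-(P.g * w)) * (Mp / θ)) * V) :=
          add_le_add le_rfl (Finset.sum_le_sum hbad)
      _ = ENNReal.ofReal (4 * CM / θ * Mp) * V +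
          (ENNReal.ofReal (∑ w ∈ Finset.Icc U₀ U₁, 5 * (w : ℝ) * (2 : ℝ) ^ (-(P.g * w))) * S +
           ENNReal.ofReal ((∑ w ∈ Finset.Icc U₀ U₁,
            CB * (w : ℝ) * (8 * C1 * w + C2) * 2 * (2 : ℝ) ^ (-(P.g * w))) * (Mp / θ)) * V) := by
          rw [← mul_assoc, ← ENNReal.ofReal_mul (by positivity), Finset.sum_add_distrib,
            ← Finset.sum_mul, ← Finset.sum_mul, ENNReal.ofReal_sum_of_nonneg (fun _ _ => by positivity),
            Finset.sum_mul (f := fun w : ℕ => CB * (w : ℝ) * (8 * C1 * w + C2) * 2 *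
              (2 : ℝ) ^ (-(P.g * w))),
            ENNReal.ofReal_sum_of_nonneg (fun _ _ => by positivity)]
          congr 3
          ring
      _ ≤ ENNReal.ofReal (4 * CM / θ * Mp) * V +
          (ENNReal.ofReal (1 / 2) * S + ENNReal.ofReal (1 * (Mp / θ)) * V) := by
          gcongr
          · exact hN1 U₀ U₁ (by omega)
          · exact hN2 U₀ U₁ (by omega)
      _ = _ := by
          rw [add_comm (ENNReal.ofReal (1 / 2) * S), ← add_assoc, ← add_mul,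
            ← ENNReal.ofReal_add (by positivity) (by positivity)]
          congr 3
          ring
  refine (absorb hSfin hfin).trans (le_of_eq ?_)
  rw [← mul_assoc]
  congr 1
  rw [show (2 : ℝ≥0∞) = ENNReal.ofReal 2 by norm_num, ← ENNReal.ofReal_mul (by norm_num)]
  congr 1
  ring

end Pool.Agent.Helper24.EP
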